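import Pool.Agent.X292.CZ.Orth
import Pool.Agent.Y442.CY.Coef

/-!
Bounds of the coefficients of a sorted anisotropic cubic form over a complete field (from
Y442.CY.Coef).
-/

set_option autoImplicit false

namespace Pool.Agent.X292.CZ

open Pool.Agent.Y214.CY Pool.Agent.Y442.CY
open scoped Valued WithZero
open WithZero

variable {k : Type} [Field k] [Valued k ℤᵐ⁰]

theorem ult3v {x y z : k} {M : ℤᵐ⁰} (hx : (Valued.v : Valuation k ℤᵐ⁰) x ^ 3 ≤ M)
    (hy : (Valued.v : Valuation k ℤᵐ⁰) y ^ 3 ≤ M) (hz : (Valued.v : Valuation k ℤᵐ⁰) z ^ 3 ≤ M) : (Valued.v : Valuation k ℤᵐ⁰) (x - y - z) ^ 3 ≤ M := by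
  have h1 : (Valued.v : Valuation k ℤᵐ⁰) (x - y - z) ≤ max (max ((Valued.v : Valuation k ℤᵐ⁰) x) ((Valued.v : Valuation k ℤᵐ⁰) y)) ((Valued.v : Valuation k ℤᵐ⁰) z) :=
    (Valuation.map_sub _ _ _).trans (max_le_max (Valuation.map_sub _ _ _) le_rfl)
  have h2 : (Valued.v : Valuation k ℤᵐ⁰) (x - y - z) ^ 3 ≤ (max (max ((Valued.v : Valuation k ℤᵐ⁰) x) ((Valued.v : Valuation k ℤᵐ⁰) y)) ((Valued.v : Valuation k ℤᵐ⁰) z)) ^ 3 := by gcongr
  refine h2.trans ?_
  rcases max_choice (max ((Valued.v : Valuation k ℤᵐ⁰) x) ((Valued.v : Valuation k ℤᵐ⁰) y)) ((Valued.v : Valuation k ℤᵐ⁰) z) with h | h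
  · rw [h]
    rcases max_choice ((Valued.v : Valuation k ℤᵐ⁰) x) ((Valued.v : Valuation k ℤᵐ⁰) y) with h' | h'
    · rwa [h']
    · rwa [h']
  · rwa [h]

/-- one of the three bounds -/
theorem onev {A B C D b1 b2 : k} {a c : ℤᵐ⁰} (hm : (Valued.v : Valuation k ℤᵐ⁰) A ≤ max a c)
    (h : (Valued.v : Valuation k ℤᵐ⁰) B ^ 3 ≤ (Valued.v : Valuation k ℤᵐ⁰) A ^ 2 * (Valued.v : Valuation k ℤᵐ⁰) D ∧ (Valued.v : Valuation k ℤᵐ⁰) C ^ 3 ≤ (Valued.v : Valuation k ℤᵐ⁰) A * (Valued.v : Valuation k ℤᵐ⁰) D ^ 2) (h1 : (Valued.v : Valuation k ℤᵐ⁰) b1 ^ 3 ≤ a ^ 2 * (Valued.v : Valuation k ℤᵐ⁰) D)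
    (h2 : (Valued.v : Valuation k ℤᵐ⁰) b2 ^ 3 ≤ c ^ 2 * (Valued.v : Valuation k ℤᵐ⁰) D) : (Valued.v : Valuation k ℤᵐ⁰) (B - b1 - b2) ^ 3 ≤ (max a c) ^ 2 * (Valued.v : Valuation k ℤᵐ⁰) D := by
  apply ult3v
  · refine h.1.trans ?_
    gcongr
  · refine h1.trans ?_
    gcongr
    exact le_max_left _ _
  · refine h2.trans ?_
    gcongr
    exact le_max_right _ _

theorem expov {a b c : ℕ} {v : ℤ}
    (h : (exp v : ℤᵐ⁰) ^ 3 ≤ (max (exp (-(a : ℤ))) (exp (-(c : ℤ)))) ^ 2 * exp (-(b : ℤ))) :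
    3 * v ≤ 2 * max (-(a : ℤ)) (-(c : ℤ)) - b := by
  have hm : max (exp (-(a : ℤ)) : ℤᵐ⁰) (exp (-(c : ℤ))) = exp (max (-(a : ℤ)) (-(c : ℤ))) :=
    (Monotone.map_max (f := fun z : ℤ => (exp z : ℤᵐ⁰))
      (fun x y hxy => WithZero.exp_le_exp.2 hxy)).symm
  rw [hm, ← exp_nsmul, ← exp_nsmul, ← exp_add, WithZero.exp_le_exp] at h
  simp only [nsmul_eq_mul] at h
  push_cast at h
  linarith

theorem COEFv [CompleteSpace k] (hπ : ∃ π : k, (Valued.v : Valuation k ℤᵐ⁰) π = exp (-1)) {n : ℕ}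
    (t : Fin n → Fin n → Fin n → k) (hA : Aniso k t)
    (ht : ∀ i j l, ¬ (i ≤ j ∧ j ≤ l) → t i j l = 0)
    (hρ : ∀ j, ∃ i : ℕ, i ≤ 2 ∧ (Valued.v : Valuation k ℤᵐ⁰) (t j j j) = exp (-(i : ℤ))) :
    ∀ i j l, (Valued.v : Valuation k ℤᵐ⁰) (t i j l) ^ 3 ≤ (Valued.v : Valuation k ℤᵐ⁰) (t i i i) * (Valued.v : Valuation k ℤᵐ⁰) (t j j j) * (Valued.v : Valuation k ℤᵐ⁰) (t l l l) := by
  have P2 : ∀ i j, i < j → (Valued.v : Valuation k ℤᵐ⁰) (t i i j) ^ 3 ≤ (Valued.v : Valuation k ℤᵐ⁰) (t i i i) ^ 2 * (Valued.v : Valuation k ℤᵐ⁰) (t j j j) ∧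
      (Valued.v : Valuation k ℤᵐ⁰) (t i j j) ^ 3 ≤ (Valued.v : Valuation k ℤᵐ⁰) (t i i i) * (Valued.v : Valuation k ℤᵐ⁰) (t j j j) ^ 2 := by
    intro i j hij
    refine BLv hπ (t i i i) (t i i j) (t i j j) (t j j j) fun s r hsr => ?_
    rw [← cubZ hij t ht]
    exact hA _ (Z_ne hij.ne hsr)
  have P3 : ∀ i j l, i < j → j < l →
      (Valued.v : Valuation k ℤᵐ⁰) (t i j l) ^ 3 ≤ (Valued.v : Valuation k ℤᵐ⁰) (t i i i) * (Valued.v : Valuation k ℤᵐ⁰) (t j j j) * (Valued.v : Valuation k ℤᵐ⁰) (t l l l) := by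
    intro i j k' hij hjk
    have hik := hij.trans hjk
    have ei : cub t (Y i j k' 1 0 0) = t i i i := by rw [cubY hij hjk t ht]; ring
    have ej : cub t (Y i j k' 0 1 0) = t j j j := by rw [cubY hij hjk t ht]; ring
    have ek : cub t (Y i j k' 0 0 1) = t k' k' k' := by rw [cubY hij hjk t ht]; ring
    -- first
    have a1 : (Valued.v : Valuation k ℤᵐ⁰) (t i j k') ^ 3 ≤ (max ((Valued.v : Valuation k ℤᵐ⁰) (t i i i)) ((Valued.v : Valuation k ℤᵐ⁰) (t k' k' k'))) ^ 2 * (Valued.v : Valuation k ℤᵐ⁰) (t j j j) := by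
      have m : (Valued.v : Valuation k ℤᵐ⁰) (cub t (Y i j k' (1 : k) 0 1)) ≤ max ((Valued.v : Valuation k ℤᵐ⁰) (t i i i)) ((Valued.v : Valuation k ℤᵐ⁰) (t k' k' k')) := by
        have := ULTv hπ t hA (Y i j k' 1 0 0) (Y i j k' 0 0 1)
        simpa only [Y_add, ei, ek, add_zero, zero_add] using this
      have b := BLv hπ (cub t (Y i j k' 1 0 1)) (t i i j + t j k' k' + t i j k')
        (t i j j + t j j k') (t j j j) fun s r hsr => by
          have e : cub t (Y i j k' 1 0 1) * s ^ 3 + (t i i j + t j k' k' + t i j k') * s ^ 2 * r +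
              (t i j j + t j j k') * s * r ^ 2 + t j j j * r ^ 3 = cub t (Y i j k' s r s) := by
            rw [cubY hij hjk t ht, cubY hij hjk t ht]
            ring
          rw [e]
          exact hA _ (Y_ne hij.ne hik.ne hjk.ne (by tauto))
      have := onev m b (b1 := t i i j) (b2 := t j k' k')
        (P2 i j hij).1 (by rw [mul_comm]; exact (P2 j k' hjk).2)
      have e : t i i j + t j k' k' + t i j k' - t i i j - t j k' k' = t i j k' := by ring
      rwa [e] at this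
    have a2 : (Valued.v : Valuation k ℤᵐ⁰) (t i j k') ^ 3 ≤ (max ((Valued.v : Valuation k ℤᵐ⁰) (t i i i)) ((Valued.v : Valuation k ℤᵐ⁰) (t j j j))) ^ 2 * (Valued.v : Valuation k ℤᵐ⁰) (t k' k' k') := by
      have m : (Valued.v : Valuation k ℤᵐ⁰) (cub t (Y i j k' (1 : k) 1 0)) ≤ max ((Valued.v : Valuation k ℤᵐ⁰) (t i i i)) ((Valued.v : Valuation k ℤᵐ⁰) (t j j j)) := by
        have := ULTv hπ t hA (Y i j k' 1 0 0) (Y i j k' 0 1 0)
        simpa only [Y_add, ei, ej, add_zero, zero_add] using this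
      have b := BLv hπ (cub t (Y i j k' 1 1 0)) (t i i k' + t j j k' + t i j k')
        (t i k' k' + t j k' k') (t k' k' k') fun s r hsr => by
          have e : cub t (Y i j k' 1 1 0) * s ^ 3 + (t i i k' + t j j k' + t i j k') * s ^ 2 * r +
              (t i k' k' + t j k' k') * s * r ^ 2 + t k' k' k' * r ^ 3 = cub t (Y i j k' s s r) := by
            rw [cubY hij hjk t ht, cubY hij hjk t ht]
            ring
          rw [e]
          exact hA _ (Y_ne hij.ne hik.ne hjk.ne (by tauto))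
      have := onev m b (b1 := t i i k') (b2 := t j j k')
        (P2 i k' hik).1 (P2 j k' hjk).1
      have e : t i i k' + t j j k' + t i j k' - t i i k' - t j j k' = t i j k' := by ring
      rwa [e] at this
    have a3 : (Valued.v : Valuation k ℤᵐ⁰) (t i j k') ^ 3 ≤ (max ((Valued.v : Valuation k ℤᵐ⁰) (t j j j)) ((Valued.v : Valuation k ℤᵐ⁰) (t k' k' k'))) ^ 2 * (Valued.v : Valuation k ℤᵐ⁰) (t i i i) := by
      have m : (Valued.v : Valuation k ℤᵐ⁰) (cub t (Y i j k' (0 : k) 1 1)) ≤ max ((Valued.v : Valuation k ℤᵐ⁰) (t j j j)) ((Valued.v : Valuation k ℤᵐ⁰) (t k' k' k')) := by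
        have := ULTv hπ t hA (Y i j k' 0 1 0) (Y i j k' 0 0 1)
        simpa only [Y_add, ej, ek, add_zero, zero_add] using this
      have b := BLv hπ (cub t (Y i j k' 0 1 1)) (t i j j + t i k' k' + t i j k')
        (t i i j + t i i k') (t i i i) fun s r hsr => by
          have e : cub t (Y i j k' 0 1 1) * s ^ 3 + (t i j j + t i k' k' + t i j k') * s ^ 2 * r +
              (t i i j + t i i k') * s * r ^ 2 + t i i i * r ^ 3 = cub t (Y i j k' r s s) := by
            rw [cubY hij hjk t ht, cubY hij hjk t ht]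
            ring
          rw [e]
          exact hA _ (Y_ne hij.ne hik.ne hjk.ne (by tauto))
      have := onev m b (b1 := t i j j) (b2 := t i k' k')
        (by rw [mul_comm]; exact (P2 i j hij).2) (by rw [mul_comm]; exact (P2 i k' hik).2)
      have e : t i j j + t i k' k' + t i j k' - t i j j - t i k' k' = t i j k' := by ring
      rwa [e] at this
    obtain ⟨a, ha, ra⟩ := hρ i
    obtain ⟨b, hb, rb⟩ := hρ j
    obtain ⟨c, hc, rc⟩ := hρ k'
    by_cases h0 : t i j k' = 0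
    · rw [h0, map_zero, zero_pow (by norm_num)]
      exact zero_le'
    obtain ⟨z, hv⟩ := exists_exp ((Valuation.ne_zero_iff (Valued.v : Valuation k ℤᵐ⁰)).2 h0)
    rw [hv, ra, rc, rb] at a1
    rw [hv, ra, rc, rb] at a2
    rw [hv, ra, rc, rb] at a3
    have n1 := expov a1
    have n2 := expov a2
    have n3 := expov a3
    have n4 := num ha hb hc (v := -z) (by simpa using n1) (by simpa using n2) (by simpa using n3)
    rw [hv, ra, rb, rc, ← exp_nsmul, ← exp_add, ← exp_add, WithZero.exp_le_exp]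
    simp only [nsmul_eq_mul]
    push_cast
    linarith
  intro i j l
  by_cases hs : i ≤ j ∧ j ≤ l
  · rcases hs.1.lt_or_eq with h | h
    · rcases hs.2.lt_or_eq with h' | h'
      · exact P3 i j l h h'
      · subst h'
        refine (P2 i j h).2.trans (le_of_eq (by rw [pow_two, mul_assoc]))
    · subst h
      rcases hs.2.lt_or_eq with h' | h'
      · refine (P2 i l h').1.trans (le_of_eq (by rw [pow_two]))
      · subst h'
        exact le_of_eq (by rw [pow_succ, pow_two])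
  · rw [ht i j l hs, map_zero, zero_pow (by norm_num)]
    exact zero_le'

end Pool.Agent.X292.CZ
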