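import Pool.Agent.X292.CZ.Loc
import Pool.Agent.X292.FW.Fin

/-!
The completions of `F(t)`.
-/

set_option autoImplicit false

namespace Pool.Agent.X292.CZ

open Module Polynomial IsDedekindDomain IsDedekindDomain.HeightOneSpectrum
open scoped Valued WithZero
open WithZero

theorem finite_res {k : Type} [Field k] [Valued k ℤᵐ⁰] (T : Type) [Finite T] (g : T → k)
    (h : ∀ x : k, (Valued.v x : ℤᵐ⁰) ≤ 1 → ∃ t, (Valued.v (g t) : ℤᵐ⁰) ≤ 1 ∧
      (Valued.v (x - g t) : ℤᵐ⁰) < 1) : Finite 𝓀[k] := by
  classical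
  refine Finite.of_surjective (fun t : T => if ht : (Valued.v (g t) : ℤᵐ⁰) ≤ 1 then
    IsLocalRing.residue 𝒪[k] ⟨g t, ht⟩ else 0) ?_
  intro y
  obtain ⟨x, rfl⟩ := IsLocalRing.residue_surjective y
  obtain ⟨t, h1, h2⟩ := h x x.2
  refine ⟨t, ?_⟩
  show (if ht : (Valued.v (g t) : ℤᵐ⁰) ≤ 1 then IsLocalRing.residue 𝒪[k] ⟨g t, ht⟩ else 0) = _
  rw [dif_pos h1, ← sub_eq_zero, ← map_sub, IsLocalRing.residue_eq_zero_iff, mem_max]
  show (Valued.v (g t - x) : ℤᵐ⁰) < 1
  rw [← Valuation.map_neg, neg_sub]
  exact h2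

variable (F : Type) [Field F]

section adic

variable {F} (v : HeightOneSpectrum F[X])

theorem approx_int (z : v.adicCompletion (RatFunc F)) (hz : (Valued.v z : ℤᵐ⁰) ≤ 1) :
    ∃ a : F[X], (Valued.v (z - algebraMap F[X] (v.adicCompletion (RatFunc F)) a) : ℤᵐ⁰) < 1 := by
  classical
  let val : Valuation (v.adicCompletion (RatFunc F)) ℤᵐ⁰ := Valued.v
  have hopen : IsOpen {w : v.adicCompletion (RatFunc F) | val (w - z) < 1} := by
    have h1 : IsOpen {w : v.adicCompletion (RatFunc F) | val w < 1} := by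
      have h2 := Valued.isOpen_ball (v.adicCompletion (RatFunc F)) (val.restrict 1)
      have h3 : {w : v.adicCompletion (RatFunc F) | val w < 1} =
          {w | val.restrict w < val.restrict 1} := by
        ext w
        simp only [Set.mem_ofPred_eq]
        rw [Valuation.restrict_lt_iff, map_one]
      rw [h3]
      exact h2
    exact h1.preimage (continuous_id.sub continuous_const)
  obtain ⟨k, hk⟩ := (denseRange_algebraMap (R := F[X]) (RatFunc F) v).exists_mem_open hopen
    ⟨z, by simp only [Set.mem_ofPred_eq, sub_self, map_zero]; exact zero_lt_one⟩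
  have hk1 : val (algebraMap (RatFunc F) (v.adicCompletion (RatFunc F)) k - z) < 1 := hk
  have hkv : ∀ k : RatFunc F, val (algebraMap (RatFunc F) (v.adicCompletion (RatFunc F)) k)
      = v.valuation (RatFunc F) k := fun k => valuedAdicCompletion_eq_valuation' (R := F[X]) v k
  have hk2 : v.valuation (RatFunc F) k ≤ 1 := by
    rw [← hkv]
    have h3 : algebraMap (RatFunc F) (v.adicCompletion (RatFunc F)) k =
      (algebraMap (RatFunc F) (v.adicCompletion (RatFunc F)) k - z) + z := by ring
    rw [h3]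
    exact (val.map_add _ _).trans (max_le hk1.le hz)
  obtain ⟨a, ha⟩ := exists_valuation_sub_lt_of_integer (K := RatFunc F) v hk2 1
  refine ⟨a, ?_⟩
  have h4 : z - algebraMap F[X] (v.adicCompletion (RatFunc F)) a =
      -(algebraMap (RatFunc F) (v.adicCompletion (RatFunc F)) (algebraMap F[X] (RatFunc F) a - k) +
      (algebraMap (RatFunc F) (v.adicCompletion (RatFunc F)) k - z)) := by
    rw [map_sub, ← IsScalarTower.algebraMap_apply]
    ring
  rw [h4]
  show val _ < 1
  rw [Valuation.map_neg]
  refine lt_of_le_of_lt (val.map_add _ _) (max_lt ?_ hk1)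
  rw [hkv]
  simpa using ha

theorem unif_adic : ∃ π : v.adicCompletion (RatFunc F), (Valued.v π : ℤᵐ⁰) = exp (-1) := by
  obtain ⟨ϖ, hϖ⟩ := v.intValuation_exists_uniformizer
  refine ⟨algebraMap F[X] (v.adicCompletion (RatFunc F)) ϖ, ?_⟩
  rw [Pool.Agent.X292.FW.val_alg, hϖ]

instance dvr_adic : IsDiscreteValuationRing 𝒪[v.adicCompletion (RatFunc F)] :=
  inferInstanceAs (IsDiscreteValuationRing (v.adicCompletionIntegers (RatFunc F)))

theorem fin_adic [Finite F] : Finite 𝓀[v.adicCompletion (RatFunc F)] := by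
  classical
  obtain ⟨P, hP⟩ : ∃ P : F[X], v.asIdeal = Ideal.span {P} :=
    (IsPrincipalIdealRing.principal v.asIdeal).principal
  have hP0 : P ≠ 0 := by
    rintro rfl
    apply v.ne_bot
    rw [hP]
    simp
  have hPmod : ∀ a : F[X], v.intValuation (P * a) < 1 := by
    intro a
    rw [v.intValuation_lt_one_iff_mem, hP, Ideal.mem_span_singleton]
    exact dvd_mul_right _ _
  refine finite_res (Fin P.natDegree → F) (fun t =>
    algebraMap F[X] (v.adicCompletion (RatFunc F)) ((degreeLTEquiv F P.natDegree).symm t : F[X])) ?_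
  intro x hx
  obtain ⟨a, ha⟩ := approx_int v x hx
  have hdeg : (a % P) ∈ degreeLT F P.natDegree := by
    rw [mem_degreeLT, ← degree_eq_natDegree hP0]
    exact degree_mod_lt a hP0
  refine ⟨degreeLTEquiv F P.natDegree ⟨a % P, hdeg⟩, ?_, ?_⟩
  · rw [LinearEquiv.symm_apply_apply, Pool.Agent.X292.FW.val_alg]
    exact v.intValuation_le_one _
  · rw [LinearEquiv.symm_apply_apply]
    have h1 : x - algebraMap F[X] (v.adicCompletion (RatFunc F)) (a % P) =
        (x - algebraMap F[X] (v.adicCompletion (RatFunc F)) a) +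
          algebraMap F[X] (v.adicCompletion (RatFunc F)) (P * (a / P)) := by
      have h2 : a = P * (a / P) + a % P := (EuclideanDomain.div_add_mod a P).symm
      have h3 : algebraMap F[X] (v.adicCompletion (RatFunc F)) a =
        algebraMap F[X] (v.adicCompletion (RatFunc F)) (P * (a / P)) +
          algebraMap F[X] (v.adicCompletion (RatFunc F)) (a % P) := by
        rw [← map_add, ← h2]
      rw [h3]
      ring
    show (Valued.v (x - algebraMap F[X] (v.adicCompletion (RatFunc F)) (a % P)) : ℤᵐ⁰) < 1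
    rw [h1]
    refine lt_of_le_of_lt (Valuation.map_add _ _ _) (max_lt ha ?_)
    rw [Pool.Agent.X292.FW.val_alg]
    exact hPmod _

end adic

section laurent

theorem unif_laurent : ∃ π : LaurentSeries F, (Valued.v π : ℤᵐ⁰) = exp (-1) :=
  ⟨HahnSeries.single 1 1, by
    have := LaurentSeries.valuation_single_zpow F 1
    simpa using this⟩

instance dvr_laurent : IsDiscreteValuationRing 𝒪[LaurentSeries F] :=
  inferInstanceAs (IsDiscreteValuationRing
    ((PowerSeries.idealX F).valuation (LaurentSeries F)).integer)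

theorem fin_laurent [Finite F] : Finite 𝓀[LaurentSeries F] := by
  refine finite_res F (fun a => HahnSeries.C a) ?_
  intro x hx
  refine ⟨x.coeff 0, ?_, ?_⟩
  · have h := (LaurentSeries.valuation_le_iff_coeff_lt_eq_zero F (D := 0)
      (f := (HahnSeries.C (x.coeff 0) : LaurentSeries F))).2 (by
        intro n hn
        rw [HahnSeries.C_apply, HahnSeries.coeff_single_of_ne hn.ne])
    simpa using h
  · rw [lt_one_iff]
    refine (LaurentSeries.valuation_le_iff_coeff_lt_eq_zero F (D := 1)).2 ?_
    intro n hn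
    rw [HahnSeries.coeff_sub, HahnSeries.C_apply]
    rcases lt_or_eq_of_le (show n ≤ 0 by omega) with h | h
    · rw [HahnSeries.coeff_single_of_ne h.ne, sub_zero]
      exact (LaurentSeries.valuation_le_iff_coeff_lt_eq_zero F (D := 0) (f := x)).1
        (by simpa using hx) n h
    · rw [h, HahnSeries.coeff_single_same, sub_self]

end laurent

end Pool.Agent.X292.CZ
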