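import Pool.Agent.X292.CZ.Prime

/-!
The place of `Prime` for inseparable extensions.
-/

set_option autoImplicit false

namespace Pool.Agent.X292.CZ

open Module
open scoped Valued WithZero
open WithZero

variable {k : Type} [Field k] [Valued k ℤᵐ⁰]

/-- the reduction after the Frobenius map -/
def liftInt {L K : Type} [Field L] [Field K] (w : Valuation L ℤᵐ⁰) (Φ : K →+* L) :
    (w.comap Φ).integer →+* w.integer where
  toFun x := ⟨Φ x, x.2⟩
  map_one' := Subtype.ext (map_one Φ)
  map_zero' := Subtype.ext (map_zero Φ)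
  map_mul' a b := Subtype.ext (map_mul Φ _ _)
  map_add' a b := Subtype.ext (map_add Φ _ _)

theorem twist {A κ : Type} [Field A] [Field κ] (iA : Algebra A κ) (Fr : A ≃+* A) :
    ∃ (alg' : Algebra A κ), @finrank A κ _ _ alg'.toModule = @finrank A κ _ _ iA.toModule ∧
      ∀ a, @algebraMap A κ _ _ alg' a = @algebraMap A κ _ _ iA (Fr a) := by
  refine ⟨((@algebraMap A κ _ _ iA).comp (Fr : A →+* A)).toAlgebra, ?_, fun a => rfl⟩
  exact @Algebra.finrank_eq_of_equiv_equiv A κ _ _
    ((@algebraMap A κ _ _ iA).comp (Fr : A →+* A)).toAlgebra A κ _ _ iA Fr (RingEquiv.refl κ)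
      (RingHom.ext fun x => rfl)

theorem prime_all [IsDiscreteValuationRing 𝒪[k]] [Finite 𝓀[k]] (hπ : ∃ π : k, (Valued.v : Valuation k ℤᵐ⁰) π = exp (-1))
    (p : ℕ) [hp : Fact p.Prime] [CharP k p] (K : Type) [Field K]
    [Algebra k K] [FiniteDimensional k K] (h3 : ¬ 3 ∣ finrank k K) :
    ∃ (w : Valuation K ℤᵐ⁰) (e : ℕ) (κ : Type) (_ : Field κ)
    (_ : Algebra 𝓀[k] κ) (_ : FiniteDimensional 𝓀[k] κ) (red : w.integer →+* κ),
    ¬ 3 ∣ e ∧ ¬ 3 ∣ finrank 𝓀[k] κ ∧
    (∀ (x : k) (m : ℤ), (Valued.v : Valuation k ℤᵐ⁰) x = exp m → w (algebraMap k K x) = exp ((e : ℤ) * m)) ∧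
    (∀ x : w.integer, red x = 0 ↔ w (x : K) < 1) ∧
    (∀ (z : 𝒪[k]) (x : w.integer), (x : K) = algebraMap k K (z : k) →
      red x = algebraMap 𝓀[k] κ (IsLocalRing.residue _ z)) := by
  classical
  let L := separableClosure k K
  have hmul : finrank k L * finrank L K = finrank k K := finrank_mul_finrank k L K
  have h3L : ¬ 3 ∣ finrank k L := fun h => h3 (hmul ▸ h.mul_right _)
  obtain ⟨w, e, κ, iF, iA, iFD, red, he, hf, hw, hred, hred2⟩ := prime_gen hπ L h3L
  haveI : CharP L p := charP_of_injective_algebraMap (algebraMap k L).injective p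
  haveI : ExpChar L p := ExpChar.prime hp.out
  haveI : IsPurelyInseparable L K := inferInstance
  obtain ⟨r, hr⟩ := IsPurelyInseparable.finrank_eq_pow (F := L) K p
  let m := IsPurelyInseparable.exponent L K
  have h3q : ¬ 3 ∣ p ^ m := by
    intro h
    have h1 : 3 ∣ p := Nat.prime_three.dvd_of_dvd_pow h
    have h2 : p = 3 := ((Nat.prime_dvd_prime_iff_eq Nat.prime_three hp.out).1 h1).symm
    have h4 : r = 0 := by
      by_contra hr0
      apply h3
      rw [← hmul, hr, h2]
      exact (dvd_pow_self 3 hr0).mul_left _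
    rw [h4, pow_zero] at hr
    have hsurj : Function.Surjective (algebraMap L K) := by
      intro x
      obtain ⟨c, hc⟩ := (finrank_eq_one_iff_of_nonzero' (1 : K) one_ne_zero).1 hr x
      exact ⟨c, by rw [← hc, Algebra.smul_def, mul_one]⟩
    have hm : m = 0 := by
      by_contra hm0
      obtain ⟨a, ha⟩ := IsPurelyInseparable.exponent_min' (K := L) (L := K) p (e := 0) (Nat.pos_of_ne_zero hm0)
      exact ha (RingHom.mem_range.2 (hsurj _))
    rw [hm, pow_zero] at h
    omega
  let Φ : K →+* L := IsPurelyInseparable.iterateFrobenius L K p (le_refl m)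
  have hΦ : ∀ x : k, Φ (algebraMap k K x) = algebraMap k L (x ^ p ^ m) := by
    intro x
    rw [IsScalarTower.algebraMap_apply k L K, map_pow]
    exact IsPurelyInseparable.iterateFrobenius_algebraMap K p (le_refl m) (algebraMap k L x)
  haveI : CharP 𝒪[k] p := (RingHom.charP_iff (𝒪[k]).subtype Subtype.val_injective p).2 inferInstance
  haveI : CharP 𝓀[k] p := by
    refine (CharP.charP_iff_prime_eq_zero hp.out).2 ?_
    rw [← map_natCast (IsLocalRing.residue 𝒪[k]), CharP.cast_eq_zero, map_zero]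
  haveI : ExpChar 𝓀[k] p := ExpChar.prime hp.out
  let Fr : 𝓀[k] ≃+* 𝓀[k] := RingEquiv.ofBijective (iterateFrobenius 𝓀[k] p m)
    (Finite.injective_iff_bijective.1 (RingHom.injective _))
  have hFr : ∀ x, Fr x = x ^ p ^ m := fun x => rfl
  have hres : ∀ (z : 𝒪[k]) (x : (w.comap Φ).integer), (x : K) = algebraMap k K (z : k) →
      red (liftInt w Φ x) = @algebraMap 𝓀[k] κ _ _ iA (Fr (IsLocalRing.residue _ z)) := by
    intro z x hx
    have h1 := hred2 (z ^ p ^ m) (liftInt w Φ x) (by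
      show Φ (x : K) = _
      rw [hx, hΦ]
      rfl)
    rw [h1, hFr, map_pow]
  obtain ⟨alg', hrank, halg⟩ := twist iA Fr
  have hf' : ¬ 3 ∣ @finrank 𝓀[k] κ _ _ alg'.toModule := by
    rw [hrank]
    exact hf
  have hfd : @FiniteDimensional 𝓀[k] κ _ _ alg'.toModule := by
    apply Module.finite_of_finrank_pos
    exact Nat.pos_of_ne_zero fun h => hf' (h ▸ dvd_zero 3)
  refine ⟨w.comap Φ, e * p ^ m, κ, iF, alg', hfd, red.comp (liftInt w Φ), ?_, ?_, ?_, ?_, ?_⟩
  · intro h
    rcases (Nat.prime_three.dvd_mul).1 h with h | h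
    · exact he h
    · exact h3q h
  · exact hf'
  · intro x n hx
    rw [Valuation.comap_apply, hΦ, hw (x ^ p ^ m) ((p ^ m : ℕ) * n) (by
      rw [map_pow, hx, ← exp_nsmul, nsmul_eq_mul])]
    congr 1
    push_cast
    ring
  · intro x
    exact hred (liftInt w Φ x)
  · intro z x hx
    rw [halg]
    exact hres z x hx

end Pool.Agent.X292.CZ
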