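import Pool.Agent.X292.CZ.Coef
import Pool.Agent.X292.CZ.Insep
import Pool.Agent.Y214.CY.Low
import Pool.Agent.Y214.CY.Loc
import Pool.Agent.Y528.CY.Poly
import Pool.Agent.Y339.CY.Low1

/-!
# Coray's local theorem over the local fields of positive characteristic

A cubic form over such a field with a nontrivial zero in a finite extension of degree prime to three
(separable or not) has a nontrivial zero. (Extends Y214.CY, the case of `ℚ_p`.)
-/

set_option autoImplicit false

namespace Pool.Agent.X292.CZ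

open Module Pool.Agent.Y214.CY
open scoped Valued WithZero
open WithZero

/-- Chevalley's theorem. -/
theorem CW (κ : Type) [Field κ] [Finite κ] (ι : Type) [Fintype ι] (t : ι → ι → ι → κ)
    (hA : Aniso κ t) : Fintype.card ι ≤ 3 := by
  classical
  haveI := Fintype.ofFinite κ
  obtain ⟨p, hp⟩ := CharP.exists κ
  haveI := hp
  haveI : Fact p.Prime := ⟨CharP.char_is_prime κ p⟩
  by_contra hcard
  rw [not_le] at hcard
  let F : MvPolynomial ι κ :=
    ∑ i, ∑ j, ∑ l, MvPolynomial.C (t i j l) * MvPolynomial.X i * MvPolynomial.X j *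
      MvPolynomial.X l
  have hF : ∀ x : ι → κ, MvPolynomial.eval x F = cub t x := by
    intro x
    simp [F, cub, map_sum]
  have hdeg : F.totalDegree ≤ 3 := by
    refine (MvPolynomial.IsHomogeneous.totalDegree_le (n := 3) ?_)
    refine MvPolynomial.IsHomogeneous.sum _ _ _ fun i _ =>
      MvPolynomial.IsHomogeneous.sum _ _ _ fun j _ =>
      MvPolynomial.IsHomogeneous.sum _ _ _ fun l _ => ?_
    have h1 := (((MvPolynomial.isHomogeneous_C ι (t i j l)).mul
      (MvPolynomial.isHomogeneous_X κ i)).mul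
      (MvPolynomial.isHomogeneous_X κ j)).mul (MvPolynomial.isHomogeneous_X κ l)
    simpa using h1
  have hdvd := char_dvd_card_solutions p (f := F) (lt_of_le_of_lt hdeg hcard)
  have hone : Fintype.card {x : ι → κ // MvPolynomial.eval x F = 0} = 1 := by
    rw [Fintype.card_eq_one_iff]
    refine ⟨⟨0, ?_⟩, ?_⟩
    · rw [hF]; simp [cub]
    · rintro ⟨y, hy⟩
      rw [hF] at hy
      by_contra hne
      exact hA y (fun h => hne (Subtype.ext h)) hy
  rw [hone] at hdvd
  exact (Fact.out : p.Prime).one_lt.ne' (Nat.dvd_one.1 hdvd)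

variable {k : Type} [Field k] [Valued k ℤᵐ⁰]

theorem block_aniso {π : k} (hπ : (Valued.v : Valuation k ℤᵐ⁰) π = exp (-1)) {n : ℕ} (s : Fin n → Fin n → Fin n → k)
    (hO : ∀ (a : Fin n → k) (j : Fin n), (Valued.v : Valuation k ℤᵐ⁰) (a j) ^ 3 * (Valued.v : Valuation k ℤᵐ⁰) (s j j j) ≤ (Valued.v : Valuation k ℤᵐ⁰) (cub s a))
    (ii : Fin n → ℕ) (hii : ∀ j, (Valued.v : Valuation k ℤᵐ⁰) (s j j j) = exp (-(ii j : ℤ))) (i : ℕ)
    (U : {j // ii j = i} → {j // ii j = i} → {j // ii j = i} → 𝒪[k])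
    (hU : ∀ a b c : {j // ii j = i}, s a b c = π ^ i * (U a b c : k)) :
    Aniso 𝓀[k] (fun a b c => IsLocalRing.residue _ (U a b c)) := by
  classical
  intro y hy h0
  obtain ⟨g, hg⟩ := Function.ne_iff.1 hy
  have hlift : ∀ j : {j // ii j = i}, ∃ a : 𝒪[k], IsLocalRing.residue _ a = y j := fun j =>
    IsLocalRing.residue_surjective (y j)
  choose a ha using hlift
  let A : Fin n → k := fun j => if h : ii j = i then ((a ⟨j, h⟩ : 𝒪[k]) : k) else 0
  have hA1 : ∀ j : {j // ii j = i}, A j = (a j : k) := by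
    intro j
    simp [A, j.2]
  have hA2 : ∀ j, ii j ≠ i → A j = 0 := by
    intro j hj
    simp [A, hj]
  have hcub : cub s A = π ^ i *
      ((∑ b, ∑ c, ∑ d, U b c d * a b * a c * a d : 𝒪[k]) : k) := by
    have e1 : cub s A = ∑ b, ∑ c, ∑ d, (if ii b = i ∧ ii c = i ∧ ii d = i then
        s b c d * A b * A c * A d else 0) := by
      simp only [cub, Algebra.algebraMap_self, RingHom.id_apply]
      refine Finset.sum_congr rfl fun b _ => Finset.sum_congr rfl fun c _ =>
        Finset.sum_congr rfl fun d _ => ?_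
      split_ifs with h
      · rfl
      · by_cases hb : ii b = i
        · by_cases hc : ii c = i
          · have hd : ii d ≠ i := fun hd => h ⟨hb, hc, hd⟩
            rw [hA2 d hd, mul_zero]
          · rw [hA2 c hc, mul_zero, zero_mul]
        · rw [hA2 b hb, mul_zero, zero_mul, zero_mul]
    rw [e1, sum_block (fun j => ii j = i) (fun b c d => s b c d * A b * A c * A d)]
    change _ = π ^ i *
      (𝒪[k]).subtype (∑ b, ∑ c, ∑ d, U b c d * a b * a c * a d : 𝒪[k])
    simp only [map_sum, map_mul, Finset.mul_sum]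
    refine Finset.sum_congr rfl fun b _ => Finset.sum_congr rfl fun c _ =>
        Finset.sum_congr rfl fun d _ => ?_
    rw [hA1 b, hA1 c, hA1 d, hU b c d]
    change _ = π ^ i * ((U b c d : k) * (a b : k) * (a c : k) * (a d : k))
    ring
  have hz : IsLocalRing.residue _ (∑ b, ∑ c, ∑ d, U b c d * a b * a c * a d : 𝒪[k]) = 0 := by
    rw [← h0]
    simp only [cub, map_sum, map_mul, ha, Algebra.algebraMap_self, RingHom.id_apply]
  have hlt : (Valued.v : Valuation k ℤᵐ⁰) ((∑ b, ∑ c, ∑ d, U b c d * a b * a c * a d : 𝒪[k]) : k) < 1 := by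
    rw [← mem_max]
    rwa [IsLocalRing.residue_eq_zero_iff] at hz
  have h1 : (Valued.v : Valuation k ℤᵐ⁰) (a g : k) = 1 := by
    have hne : ¬ (Valued.v : Valuation k ℤᵐ⁰) (a g : k) < 1 := by
      intro hlt'
      apply hg
      rw [← mem_max, ← IsLocalRing.residue_eq_zero_iff, ha g] at hlt'
      exact hlt'
    exact le_antisymm (a g).2 (not_lt.1 hne)
  have h2 := hO A g
  rw [hA1 g, hcub, map_mul, hii, g.2, map_pow, hπ, h1, one_pow, one_mul, ← exp_nsmul] at h2
  have e1 : (i • (-1 : ℤ)) = -(i : ℤ) := by simp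
  rw [e1] at h2
  have h3 : (exp (-(i : ℤ)) : ℤᵐ⁰) *
      (Valued.v : Valuation k ℤᵐ⁰) ((∑ b, ∑ c, ∑ d, U b c d * a b * a c * a d : 𝒪[k]) : k) < exp (-(i : ℤ)) * 1 :=
    mul_lt_mul_of_pos_left hlt (zero_lt_iff.2 exp_ne_zero)
  rw [mul_one] at h3
  exact absurd h2 (not_le.2 h3)

/-- The sorted form in an orthogonal basis is anisotropic over `K`. -/
theorem sorted_K [IsDiscreteValuationRing 𝒪[k]] [Finite 𝓀[k]] (p : ℕ) [Fact p.Prime] [CharP k p]
    {π : k} (hπ : (Valued.v : Valuation k ℤᵐ⁰) π = exp (-1))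
    (hLOW : S_LOW) (K : Type) [Field K]
    [Algebra k K] [FiniteDimensional k K] (h3 : ¬ 3 ∣ finrank k K) {n : ℕ}
    (s : Fin n → Fin n → Fin n → k)
    (hO : ∀ (a : Fin n → k) (j : Fin n), (Valued.v : Valuation k ℤᵐ⁰) (a j) ^ 3 * (Valued.v : Valuation k ℤᵐ⁰) (s j j j) ≤ (Valued.v : Valuation k ℤᵐ⁰) (cub s a))
    (ii : Fin n → ℕ) (hi2 : ∀ j, ii j ≤ 2) (hii : ∀ j, (Valued.v : Valuation k ℤᵐ⁰) (s j j j) = exp (-(ii j : ℤ)))
    (hcoef : ∀ i j l, (Valued.v : Valuation k ℤᵐ⁰) (s i j l) ^ 3 ≤ (Valued.v : Valuation k ℤᵐ⁰) (s i i i) * (Valued.v : Valuation k ℤᵐ⁰) (s j j j) * (Valued.v : Valuation k ℤᵐ⁰) (s l l l))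
    (z : Fin n → K) (hz : z ≠ 0) : cub s z ≠ 0 := by
  classical
  obtain ⟨w, e, κ, _, _, _, red, he, hf, hw, hred, hred2⟩ := prime_all ⟨π, hπ⟩ p K h3
  change ∀ (x : k) (m : ℤ), (Valued.v : Valuation k ℤᵐ⁰) x = exp m → w (algebraMap k K x) = ee ((e : ℤ) * m) at hw
  -- monotonicity
  have hmono : ∀ x y : k, (Valued.v : Valuation k ℤᵐ⁰) x ≤ (Valued.v : Valuation k ℤᵐ⁰) y → w (algebraMap k K x) ≤ w (algebraMap k K y) := by
    intro x y hxy
    by_cases hx : x = 0
    · rw [hx, map_zero, map_zero]; exact zero_le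
    have hy : y ≠ 0 := by
      rintro rfl
      rw [map_zero] at hxy
      exact hx ((Valuation.zero_iff _).1 (le_zero_iff.1 hxy))
    obtain ⟨a, ha⟩ := exists_exp ((Valuation.ne_zero_iff (Valued.v : Valuation k ℤᵐ⁰)).2 hx)
    obtain ⟨b, hb⟩ := exists_exp ((Valuation.ne_zero_iff (Valued.v : Valuation k ℤᵐ⁰)).2 hy)
    rw [hw x a ha, hw y b hb]
    apply ee_le
    rw [ha, hb, WithZero.exp_le_exp] at hxy
    have he0 : (0 : ℤ) ≤ e := by positivity
    nlinarith
  have hτ : ∀ j, w (algebraMap k K (s j j j)) = ee (-(e : ℤ) * ii j) := by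
    intro j
    rw [hw _ _ (hii j)]
    congr 1
    ring
  have hcoef' : ∀ i j l, w (algebraMap k K (s i j l)) ^ 3 ≤
      ee (-(e : ℤ) * ii i) * ee (-(e : ℤ) * ii j) * ee (-(e : ℤ) * ii l) := by
    intro i j l
    have := hmono (s i j l ^ 3) (s i i i * s j j j * s l l l) (by
      rw [map_pow, map_mul, map_mul]; exact hcoef i j l)
    rwa [map_pow, map_pow, map_mul, map_mul, map_mul, map_mul, hτ, hτ, hτ] at this
  -- the maximal index
  obtain ⟨j1, hj1⟩ := Function.ne_iff.1 hz
  obtain ⟨j0, -, hj0⟩ := Finset.exists_max_image Finset.univ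
    (fun j => w (z j) ^ 3 * ee (-(e : ℤ) * ii j)) ⟨j1, Finset.mem_univ _⟩
  have hzj0 : z j0 ≠ 0 := by
    intro h0
    have := hj0 j1 (Finset.mem_univ _)
    rw [h0, map_zero, zero_pow (by norm_num), zero_mul] at this
    have h2 := le_antisymm this zero_le
    rcases mul_eq_zero.1 h2 with h | h
    · exact hj1 (by simpa using (pow_eq_zero_iff (by norm_num)).1 h)
    · exact ee_ne _ h
  have hwz0 : w (z j0) ≠ 0 := by rwa [Ne, Valuation.zero_iff]
  -- scale
  set y : Fin n → K := fun j => z j / z j0 with hy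
  have hzy : z = fun j => z j0 * y j := by
    funext j
    rw [hy]
    field_simp
  suffices hmain : cub s y ≠ 0 by
    rw [hzy, Pool.Agent.Y214.CY.cub_smul]
    exact mul_ne_zero (pow_ne_zero _ hzj0) hmain
  set i := ii j0 with hi
  have hyj0 : y j0 = 1 := by rw [hy]; exact div_self hzj0
  set γ := ee (-(e : ℤ) * i) with hγ
  have hγ0 : γ ≠ 0 := ee_ne _
  have hyle : ∀ j, w (y j) ^ 3 * ee (-(e : ℤ) * ii j) ≤ γ := by
    intro j
    have h1 := hj0 j (Finset.mem_univ _)
    have h2 : w (y j) = w (z j) / w (z j0) := by rw [hy]; exact map_div₀ w _ _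
    rw [h2, div_pow, div_mul_eq_mul_div, div_le_iff₀ (by
      exact pow_pos (zero_lt_iff.2 hwz0) 3)]
    rw [mul_comm γ]
    exact h1
  have hylt : ∀ j, ii j ≠ i → w (y j) ^ 3 * ee (-(e : ℤ) * ii j) < γ := by
    intro j hj
    refine lt_of_le_of_ne (hyle j) ?_
    intro heq
    have hyj : w (y j) ≠ 0 := by
      intro h
      rw [h, zero_pow (by norm_num), zero_mul] at heq
      exact hγ0 heq.symm
    obtain ⟨a, ha⟩ := exists_ee hyj
    rw [ha, ee_pow3, ← ee_mul, hγ] at heq
    have h1 := ee_inj heq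
    have h2 : (3 : ℤ) ∣ e * ((ii j : ℤ) - i) := ⟨a, by linarith⟩
    have h3' : (3 : ℤ) ∣ e ∨ (3 : ℤ) ∣ ((ii j : ℤ) - i) :=
      (Int.prime_three).dvd_or_dvd h2
    rcases h3' with h | h
    · exact he (by exact_mod_cast h)
    · have := hi2 j
      have := hi2 j0
      omega
  have hy1 : ∀ j, ii j = i → w (y j) ≤ 1 := by
    intro j hj
    have h1 := hyle j
    rw [hj] at h1
    have h2 : w (y j) ^ 3 ≤ 1 := by
      have h3 : w (y j) ^ 3 * γ ≤ 1 * γ := by rw [one_mul]; exact h1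
      exact le_of_mul_le_mul_right h3 (zero_lt_iff.2 hγ0)
    apply le_of_cube
    rw [one_pow]; exact h2
  -- the terms
  let f : Fin n → Fin n → Fin n → K := fun a b c =>
    algebraMap k K (s a b c) * y a * y b * y c
  have hfle : ∀ a b c, w (f a b c) ^ 3 ≤ (w (y a) ^ 3 * ee (-(e : ℤ) * ii a)) *
      (w (y b) ^ 3 * ee (-(e : ℤ) * ii b)) * (w (y c) ^ 3 * ee (-(e : ℤ) * ii c)) := by
    intro a b c
    have h1 : w (f a b c) ^ 3 = w (algebraMap k K (s a b c)) ^ 3 *
        (w (y a) ^ 3 * w (y b) ^ 3 * w (y c) ^ 3) := by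
      simp only [f, map_mul, mul_pow, mul_assoc]
    rw [h1]
    calc _ ≤ (ee (-(e : ℤ) * ii a) * ee (-(e : ℤ) * ii b) * ee (-(e : ℤ) * ii c)) *
        (w (y a) ^ 3 * w (y b) ^ 3 * w (y c) ^ 3) := by
          have := hcoef' a b c
          gcongr
      _ = _ := by
        simp only [mul_assoc, mul_comm, mul_left_comm]
  have hflt : ∀ a b c, ¬ (ii a = i ∧ ii b = i ∧ ii c = i) → w (f a b c) < γ := by
    intro a b c h
    apply lt_of_cube
    refine lt_of_le_of_lt (hfle a b c) ?_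
    by_cases ha : ii a = i
    · by_cases hb : ii b = i
      · have hc : ii c ≠ i := fun hc => h ⟨ha, hb, hc⟩
        rw [mul_comm, ← mul_assoc]
        exact mul3_lt hγ0 (hylt c hc) (hyle a) (hyle b)
      · rw [mul_comm (w (y a) ^ 3 * ee (-(e : ℤ) * ii a))]
        exact mul3_lt hγ0 (hylt b hb) (hyle a) (hyle c)
    · exact mul3_lt hγ0 (hylt a ha) (hyle b) (hyle c)
  intro h0
  -- the block sum is small
  have hrest : w (∑ a, ∑ b, ∑ c, (if ii a = i ∧ ii b = i ∧ ii c = i then 0 else f a b c)) < γ := by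
    refine Valuation.map_sum_lt _ hγ0 fun a _ => Valuation.map_sum_lt _ hγ0 fun b _ =>
      Valuation.map_sum_lt _ hγ0 fun c _ => ?_
    split_ifs with h
    · rw [map_zero]; exact zero_lt_iff.2 hγ0
    · exact hflt a b c h
  have hsplit : cub s y = (∑ a, ∑ b, ∑ c, (if ii a = i ∧ ii b = i ∧ ii c = i then f a b c else 0)) +
      ∑ a, ∑ b, ∑ c, (if ii a = i ∧ ii b = i ∧ ii c = i then 0 else f a b c) := by
    simp only [cub, ← Finset.sum_add_distrib]
    refine Finset.sum_congr rfl fun a _ => Finset.sum_congr rfl fun b _ =>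
      Finset.sum_congr rfl fun c _ => ?_
    split_ifs <;> simp [f]
  have hblock : w (∑ a : {j // ii j = i}, ∑ b : {j // ii j = i}, ∑ c : {j // ii j = i},
      f a b c) < γ := by
    rw [← sum_block (fun j => ii j = i) f]
    rw [h0] at hsplit
    have : (∑ a, ∑ b, ∑ c, (if ii a = i ∧ ii b = i ∧ ii c = i then f a b c else 0)) =
      -∑ a, ∑ b, ∑ c, (if ii a = i ∧ ii b = i ∧ ii c = i then 0 else f a b c) := by
      linear_combination -hsplit
    rw [this, Valuation.map_neg]
    exact hrest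
  -- integral coefficients
  have hp0 : π ≠ 0 := by
    rintro rfl
    rw [map_zero] at hπ
    exact exp_ne_zero hπ.symm
  have hπi : (Valued.v : Valuation k ℤᵐ⁰) (π ^ i) = exp (-(i : ℤ)) := by
    rw [map_pow, hπ, ← exp_nsmul]
    congr 1
    simp
  have hUle : ∀ a b c : {j // ii j = i}, (Valued.v : Valuation k ℤᵐ⁰) (s a b c / π ^ i) ≤ 1 := by
    intro a b c
    rw [map_div₀, hπi, div_le_one₀ (zero_lt_iff.2 exp_ne_zero)]
    have h1 := hcoef a b c
    rw [hii, hii, hii, a.2, b.2, c.2] at h1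
    apply le_of_cube
    calc _ ≤ _ := h1
      _ = _ := by rw [pow_succ, pow_two]
  let U : {j // ii j = i} → {j // ii j = i} → {j // ii j = i} → 𝒪[k] := fun a b c =>
    ⟨s a b c / π ^ i, hUle a b c⟩
  have hU : ∀ a b c : {j // ii j = i}, s a b c = π ^ i * (U a b c : k) := by
    intro a b c
    change s a b c = π ^ i * (s a b c / π ^ i)
    field_simp
  have hAn := block_aniso hπ s hO ii hii i U hU
  have hcard := CW 𝓀[k] _ _ hAn
  have hAnκ := hLOW 𝓀[k] κ _ _ hcard hf hAn
  -- reduction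
  have hwint : ∀ u : 𝒪[k], w (algebraMap k K (u : k)) ≤ 1 := by
    intro u
    have := hmono (u : k) 1 (by rw [map_one]; exact u.2)
    rwa [map_one, map_one] at this
  let V : {j // ii j = i} → {j // ii j = i} → {j // ii j = i} → w.integer := fun a b c =>
    ⟨algebraMap k K (U a b c : k), hwint _⟩
  let Y : {j // ii j = i} → w.integer := fun a => ⟨y a, hy1 a a.2⟩
  let X : w.integer := ∑ a, ∑ b, ∑ c, V a b c * Y a * Y b * Y c
  have hX : (X : K) * algebraMap k K (π ^ i) =
      ∑ a : {j // ii j = i}, ∑ b : {j // ii j = i}, ∑ c : {j // ii j = i}, f a b c := by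
    have e1 : (X : K) = ∑ a : {j // ii j = i}, ∑ b : {j // ii j = i}, ∑ c : {j // ii j = i},
        algebraMap k K (U a b c : k) * y a * y b * y c := by
      change w.integer.subtype X = _
      simp only [X, map_sum, map_mul]
      rfl
    rw [e1, Finset.sum_mul]
    refine Finset.sum_congr rfl fun a _ => ?_
    rw [Finset.sum_mul]
    refine Finset.sum_congr rfl fun b _ => ?_
    rw [Finset.sum_mul]
    refine Finset.sum_congr rfl fun c _ => ?_
    change _ = algebraMap k K (s a b c) * y a * y b * y c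
    rw [hU a b c, map_mul]
    ring
  have hwp : w (algebraMap k K (π ^ i)) = γ := by
    rw [hw _ _ hπi, hγ]
    congr 1
    ring
  have hX1 : w (X : K) < 1 := by
    have h1 := hblock
    rw [← hX, map_mul, hwp] at h1
    have h2 : w (X : K) * γ < 1 * γ := by rw [one_mul]; exact h1
    exact lt_of_mul_lt_mul_right h2 zero_le
  have hX0 : red X = 0 := (hred X).2 hX1
  apply hAnκ (fun a => red (Y a))
  · intro hc
    have h1 : red (Y ⟨j0, rfl⟩) = 0 := congrFun hc ⟨j0, rfl⟩
    have h2 : Y ⟨j0, rfl⟩ = 1 := Subtype.ext hyj0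
    rw [h2, map_one] at h1
    exact one_ne_zero h1
  · rw [← hX0]
    simp only [cub, X, map_sum, map_mul]
    refine Finset.sum_congr rfl fun a _ => Finset.sum_congr rfl fun b _ =>
      Finset.sum_congr rfl fun c _ => ?_
    rw [hred2 (U a b c) (V a b c) rfl]

/-- Coray's theorem in terms of tensors. -/
theorem loc [CompleteSpace k] [IsDiscreteValuationRing 𝒪[k]] [Finite 𝓀[k]] (p : ℕ)
    [Fact p.Prime] [CharP k p]
    (hπ : ∃ π : k, (Valued.v : Valuation k ℤᵐ⁰) π = exp (-1)) (K : Type) [Field K]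
    [Algebra k K] [FiniteDimensional k K] (h3 : ¬ 3 ∣ finrank k K) {n : ℕ}
    (t : Fin n → Fin n → Fin n → k) (hA : Aniso k t) : Aniso K t := by
  intro x hx
  obtain ⟨e, hlin, hO, hexp⟩ := ORTHv hπ t hA
  obtain ⟨s, hs0, hs⟩ := Pool.Agent.Y528.CY.t_SORT n k (tens t e)
  have hev : ∀ a : Fin n → k, cub s a = cub t (∑ i, a i • e i) := by
    intro a
    rw [hs, cub_tens]
    congr 1
    funext i
    simp only [Algebra.algebraMap_self, RingHom.id_apply, Finset.sum_apply, Pi.smul_apply,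
      smul_eq_mul]
  have hsj : ∀ j, s j j j = cub t (e j) := by
    intro j
    rw [← cub_single s j, hev]
    congr 1
    simp [Pi.single_apply]
  have hAs : Aniso k s := by
    intro a ha h0
    rw [hev] at h0
    apply hA _ _ h0
    intro hc
    apply ha
    have := Fintype.linearIndependent_iff.1 hlin a hc
    funext i
    exact this i
  choose ii hi2 hii using hexp
  have hii' : ∀ j, (Valued.v : Valuation k ℤᵐ⁰) (s j j j) = exp (-(ii j : ℤ)) := fun j => by rw [hsj]; exact hii j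
  have hO' : ∀ (a : Fin n → k) (j : Fin n), (Valued.v : Valuation k ℤᵐ⁰) (a j) ^ 3 * (Valued.v : Valuation k ℤᵐ⁰) (s j j j) ≤ (Valued.v : Valuation k ℤᵐ⁰) (cub s a) := by
    intro a j
    rw [hev, hsj]
    exact hO a j
  have hcoef := COEFv hπ s hAs hs0 (fun j => ⟨ii j, hi2 j, hii' j⟩)
  -- coordinates over K
  let M : Matrix (Fin n) (Fin n) k := Matrix.of e
  have hM : IsUnit M.det := by
    rw [← Matrix.isUnit_iff_isUnit_det]
    exact Matrix.linearIndependent_rows_iff_isUnit.1 hlin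
  let MK : Matrix (Fin n) (Fin n) K := M.map (algebraMap k K)
  have hMK : IsUnit MK.det := by
    have : MK.det = algebraMap k K M.det := by
      rw [RingHom.map_det]; rfl
    rw [this]
    exact hM.map _
  let y : Fin n → K := Matrix.vecMul x MK⁻¹
  have hyx : Matrix.vecMul y MK = x := by
    rw [Matrix.vecMul_vecMul, Matrix.nonsing_inv_mul _ hMK, Matrix.vecMul_one]
  have hy : y ≠ 0 := by
    intro h
    rw [h, Matrix.zero_vecMul] at hyx
    exact hx hyx.symm
  obtain ⟨π, hπ⟩ := hπ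
  have h1 := sorted_K p hπ (t_LOW Pool.Agent.Y339.CY.Low1.t_NRM1 Pool.Agent.Y339.CY.Low1.t_NRM2
    Pool.Agent.Y339.CY.Low1.t_TOP) K h3 s hO' ii hi2 hii' hcoef y hy
  rw [hs, cub_tens] at h1
  have h2 : (fun i => ∑ a, y a * algebraMap k K (e a i)) = x := by
    rw [← hyx]
    funext i
    simp only [Matrix.vecMul, dotProduct]
    rfl
  rwa [h2] at h1

/-- **Coray's theorem**: a cubic form over `k` with a nontrivial zero in a finite extension of degree
prime to three has a nontrivial zero in `k`. -/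
theorem coray [CompleteSpace k] [IsDiscreteValuationRing 𝒪[k]] [Finite 𝓀[k]] (p : ℕ)
    [Fact p.Prime] [CharP k p]
    (hπ : ∃ π : k, (Valued.v : Valuation k ℤᵐ⁰) π = exp (-1)) (K : Type) [Field K]
    [Algebra k K] [FiniteDimensional k K] (h3 : ¬ 3 ∣ finrank k K) {n : ℕ}
    (f : MvPolynomial (Fin n) k) (hf : f.IsHomogeneous 3) (x : Fin n → K) (hx : x ≠ 0)
    (h0 : MvPolynomial.aeval x f = 0) : ∃ y : Fin n → k, y ≠ 0 ∧ MvPolynomial.aeval y f = 0 := by
  obtain ⟨t, ht⟩ := Pool.Agent.Y528.CY.t_POLY n k f hf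
  by_contra hcon
  push Not at hcon
  have hA : Aniso k t := by
    intro y hy h
    exact hcon y hy (by rw [ht]; exact h)
  have := loc p hπ K h3 t hA x hx
  rw [ht] at h0
  exact this h0

end Pool.Agent.X292.CZ
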