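import Pool.Agent.X292.CZ.Fields
import Pool.Agent.Y716.FF.Final

/-!
# Zero-cycles of degree one on cubic hypersurfaces over `F_q(t)`
-/

set_option autoImplicit false

namespace Pool.Agent.X292.CZ

open Module Polynomial IsDedekindDomain IsDedekindDomain.HeightOneSpectrum
open scoped Valued WithZero
open WithZero

/-- The form `f` over `R` has a zero-cycle of degree one over the field `K`. -/
def ZC {R : Type} [CommRing R] {ι : Type} (f : MvPolynomial ι R) {K : Type} [Field K]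
    (φ : R →+* K) : Prop :=
  ∃ (s : ℕ) (L : Fin s → Type) (_ : ∀ i, Field (L i)) (_ : ∀ i, Algebra K (L i)) (m : Fin s → ℤ),
    (∀ i, FiniteDimensional K (L i)) ∧
    (∀ i, ∃ x : ι → L i, x ≠ 0 ∧ MvPolynomial.eval₂ ((algebraMap K (L i)).comp φ) x f = 0) ∧
    ∑ i, m i * (finrank K (L i) : ℤ) = 1

theorem zc_of_point {R : Type} [CommRing R] {ι : Type} (f : MvPolynomial ι R) {K : Type} [Field K]
    (φ : R →+* K) (x : ι → K) (hx : x ≠ 0) (h0 : MvPolynomial.eval₂ φ x f = 0) : ZC f φ := by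
  refine ⟨1, fun _ => K, fun _ => inferInstance, fun _ => inferInstance, fun _ => 1,
    fun _ => inferInstance, fun _ => ⟨x, hx, ?_⟩, by simp⟩
  rw [Algebra.algebraMap_self, RingHom.id_comp]
  exact h0

theorem point_of_zc {R : Type} [CommRing R] {n : ℕ} (f : MvPolynomial (Fin n) R)
    (hf : f.IsHomogeneous 3) {K : Type} [Field K] [Valued K ℤᵐ⁰] [CompleteSpace K]
    [IsDiscreteValuationRing 𝒪[K]] [Finite 𝓀[K]] (p : ℕ) [Fact p.Prime] [CharP K p]
    (hπ : ∃ π : K, (Valued.v π : ℤᵐ⁰) = exp (-1))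
    (φ : R →+* K) (h : ZC f φ) : ∃ x : Fin n → K, x ≠ 0 ∧ MvPolynomial.eval₂ φ x f = 0 := by
  obtain ⟨s, L, hF, hA, m, hfd, hx, hsum⟩ := h
  have h1 : ∃ i, ¬ 3 ∣ finrank K (L i) := by
    by_contra hcon
    push Not at hcon
    have h2 : (3 : ℤ) ∣ ∑ i, m i * (finrank K (L i) : ℤ) := by
      apply Finset.dvd_sum
      intro i _
      exact Dvd.dvd.mul_left (by exact_mod_cast hcon i) _
    rw [hsum] at h2
    omega
  obtain ⟨i, hi⟩ := h1
  obtain ⟨x, hx0, hx⟩ := hx i
  haveI := hfd i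
  obtain ⟨y, hy0, hy⟩ := coray p hπ (L i) hi (MvPolynomial.map φ f) (hf.map φ) x hx0 (by
    rw [MvPolynomial.aeval_def, MvPolynomial.eval₂_map]
    exact hx)
  refine ⟨y, hy0, ?_⟩
  rw [MvPolynomial.aeval_def, MvPolynomial.eval₂_map, Algebra.algebraMap_self,
    RingHom.id_comp] at hy
  exact hy

/-- Zero-cycles of degree one over all completions. -/
def LocalZC {F : Type} [Field F] {n : ℕ} (f : MvPolynomial (Fin n) F[X]) : Prop :=
  (∀ v : HeightOneSpectrum F[X], ZC f (algebraMap F[X] (v.adicCompletion (RatFunc F)))) ∧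
    ZC f (Pool.Agent.Y241.toInfty F)

/-- Zeros over all completions. -/
def LocalZ {F : Type} [Field F] {n : ℕ} (f : MvPolynomial (Fin n) F[X]) : Prop :=
  (∀ v : HeightOneSpectrum F[X],
    ∃ x : Fin n → v.adicCompletion (RatFunc F), x ≠ 0 ∧ MvPolynomial.aeval x f = 0) ∧
  ∃ x : Fin n → LaurentSeries F, x ≠ 0 ∧
    MvPolynomial.eval₂ (Pool.Agent.Y241.toInfty F) x f = 0

theorem localZC_iff {F : Type} [Field F] [Finite F] {n : ℕ} (f : MvPolynomial (Fin n) F[X])
    (hf : f.IsHomogeneous 3) : LocalZC f ↔ LocalZ f := by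
  obtain ⟨p, hp⟩ := CharP.exists F
  haveI := hp
  haveI : Fact p.Prime := ⟨(CharP.char_is_prime_or_zero F p).resolve_right
    (fun h => by subst h; exact (CharP.char_ne_zero_of_finite F 0) rfl)⟩
  constructor
  · rintro ⟨h1, h2⟩
    refine ⟨fun v => ?_, ?_⟩
    · haveI := fin_adic v
      haveI : CharP (v.adicCompletion (RatFunc F)) p :=
        charP_of_injective_ringHom ((algebraMap F[X] (v.adicCompletion (RatFunc F))).comp
          Polynomial.C).injective p
      exact point_of_zc f hf p (unif_adic v) _ (h1 v)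
    · haveI := fin_laurent F
      haveI : CharP (LaurentSeries F) p :=
        charP_of_injective_ringHom ((Pool.Agent.Y241.toInfty F).comp Polynomial.C).injective p
      exact point_of_zc f hf p (unif_laurent F) _ h2
  · rintro ⟨h1, h2⟩
    refine ⟨fun v => ?_, ?_⟩
    · obtain ⟨x, hx, h0⟩ := h1 v
      exact zc_of_point f _ x hx h0
    · obtain ⟨x, hx, h0⟩ := h2
      exact zc_of_point f _ x hx h0

/-- **Main theorem.** -/
theorem main (F : Type) [Field F] [Finite F] (n : ℕ) (hn : 3 ≤ n) :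
    Filter.Tendsto (fun A : ℕ =>
      (({f : MvPolynomial (Fin (n + 1)) F[X] | (f.IsHomogeneous 3 ∧ ∀ m, (f.coeff m).degree < A) ∧
        ∃ x : Fin (n + 1) → RatFunc F, x ≠ 0 ∧ MvPolynomial.aeval x f = 0} : Set _).ncard : ℝ) /
      (({f : MvPolynomial (Fin (n + 1)) F[X] | (f.IsHomogeneous 3 ∧ ∀ m, (f.coeff m).degree < A) ∧
        LocalZC f} : Set _).ncard : ℝ))
      Filter.atTop (nhds 1) := by
  have h1 : Filter.Tendsto (fun A : ℕ =>
      (({f : MvPolynomial (Fin (n + 1)) F[X] | (f.IsHomogeneous 3 ∧ ∀ m, (f.coeff m).degree < A) ∧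
        ∃ x : Fin (n + 1) → RatFunc F, x ≠ 0 ∧ MvPolynomial.aeval x f = 0} : Set _).ncard : ℝ) /
      (({f : MvPolynomial (Fin (n + 1)) F[X] | (f.IsHomogeneous 3 ∧ ∀ m, (f.coeff m).degree < A) ∧
        LocalZ f} : Set _).ncard : ℝ))
      Filter.atTop (nhds 1) :=
    Pool.Agent.Y716.FF.main_tendsto (F := F) (ι := Fin (n + 1)) 1
      (by rw [Fintype.card_fin]; omega) (by rw [Fintype.card_fin]; omega)
  refine h1.congr (fun A => ?_)
  congr 3
  ext f
  exact and_congr_right (fun hf => (localZC_iff f hf.1).symm)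

end Pool.Agent.X292.CZ
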