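import Pool.Agent.X292.CZ.Bl

/-!
Orthogonal bases for anisotropic cubic forms over locally compact fields (from Y759.CY.Orth).
-/

set_option autoImplicit false

namespace Pool.Agent.X292.CZ

open Pool.Agent.Y214.CY Filter Topology

section norm

variable {k : Type} [NontriviallyNormedField k] [CompleteSpace k] [IsUltrametricDist k]
  [ProperSpace k] {n : ℕ}

omit [CompleteSpace k] [IsUltrametricDist k] [ProperSpace k] in
theorem cub_cont (t : Fin n → Fin n → Fin n → k) :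
    Continuous (fun x : Fin n → k => cub t x) := by
  unfold cub
  refine continuous_finset_sum _ fun i _ => continuous_finset_sum _ fun j _ =>
    continuous_finset_sum _ fun k _ => ?_
  exact ((continuous_const.mul (continuous_apply i)).mul (continuous_apply j)).mul
    (continuous_apply k)

omit [CompleteSpace k] [IsUltrametricDist k] [ProperSpace k] in
theorem norm_exists (x : Fin n → k) (hx : x ≠ 0) : ∃ i, ‖x i‖ = ‖x‖ := by
  by_contra h
  push Not at h
  have h1 : ∀ i, ‖x i‖ < ‖x‖ := fun i => lt_of_le_of_ne (norm_le_pi_norm x i) (h i)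
  have h2 := (pi_norm_lt_iff (norm_pos_iff.2 hx)).2 h1
  exact lt_irrefl _ h2

omit [CompleteSpace k] [IsUltrametricDist k] [ProperSpace k] in
theorem norm_unit (x : Fin n → k) (hx : x ≠ 0) : ∃ c : k, ‖c‖ = ‖x‖ ∧ ‖c⁻¹ • x‖ = 1 := by
  obtain ⟨i, hi⟩ := norm_exists x hx
  refine ⟨x i, hi, ?_⟩
  rw [norm_smul, norm_inv, hi, inv_mul_cancel₀ (norm_ne_zero_iff.2 hx)]

omit [CompleteSpace k] [IsUltrametricDist k] in
theorem exists_delta (t : Fin n → Fin n → Fin n → k) (ht : Aniso k t) :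
    ∃ δ : ℝ, 0 < δ ∧ ∀ x : Fin n → k, δ * ‖x‖ ^ 3 ≤ ‖cub t x‖ := by
  by_cases hne : (Metric.sphere (0 : Fin n → k) 1).Nonempty
  · obtain ⟨y, hy, hmin⟩ := (isCompact_sphere (0 : Fin n → k) 1).exists_isMinOn hne
      (cub_cont t).norm.continuousOn
    have hy0 : y ≠ 0 := by
      rintro rfl
      rw [mem_sphere_zero_iff_norm, norm_zero] at hy
      exact zero_ne_one hy
    refine ⟨‖cub t y‖, norm_pos_iff.2 (ht y hy0), fun x => ?_⟩
    by_cases hx : x = 0
    · subst hx
      rw [norm_zero]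
      simp
    · obtain ⟨c, hc1, hc2⟩ := norm_unit x hx
      have h2 : ‖cub t y‖ ≤ ‖cub t (c⁻¹ • x)‖ := hmin (mem_sphere_zero_iff_norm.2 hc2)
      rw [cub_smul, norm_mul, norm_pow, norm_inv, hc1] at h2
      have h3 : ‖x‖ ≠ 0 := norm_ne_zero_iff.2 hx
      calc ‖cub t y‖ * ‖x‖ ^ 3 ≤ (‖x‖⁻¹ ^ 3 * ‖cub t x‖) * ‖x‖ ^ 3 :=
            mul_le_mul_of_nonneg_right h2 (by positivity)
        _ = ‖cub t x‖ := by field_simp
  · refine ⟨1, one_pos, fun x => ?_⟩
    by_cases hx : x = 0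
    · subst hx
      rw [norm_zero]
      simp
    · exfalso
      obtain ⟨c, _, hc2⟩ := norm_unit x hx
      exact hne ⟨c⁻¹ • x, mem_sphere_zero_iff_norm.2 hc2⟩

omit [IsUltrametricDist k] in
theorem exists_min (t : Fin n → Fin n → Fin n → k) (ht : Aniso k t)
    (W : Submodule k (Fin n → k)) (v : Fin n → k) :
    ∃ v' : Fin n → k, v' - v ∈ W ∧ ∀ w ∈ W, ‖cub t v'‖ ≤ ‖cub t (v' + w)‖ := by
  obtain ⟨δ, hδ, hδ2⟩ := exists_delta t ht
  have hcl : IsClosed {x : Fin n → k | x - v ∈ W} :=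
    (Submodule.closed_of_finiteDimensional W).preimage (continuous_id.sub continuous_const)
  obtain ⟨x, hx, hmin⟩ := (cub_cont t).norm.continuousOn.exists_isMinOn' hcl (x₀ := v)
    (by
      rw [Set.mem_setOf_eq, sub_self]
      exact W.zero_mem)
    (by
      apply Filter.Eventually.filter_mono inf_le_left
      have h1 := (tendsto_norm_cocompact_atTop (E := Fin n → k)).eventually_ge_atTop
        (‖cub t v‖ / δ + 1)
      filter_upwards [h1] with y hy
      have h2 : 1 ≤ ‖y‖ := le_trans (le_add_of_nonneg_left (by positivity)) hy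
      have h3 : ‖y‖ ≤ ‖y‖ ^ 3 := le_self_pow₀ h2 (by norm_num)
      calc ‖cub t v‖ = δ * (‖cub t v‖ / δ) := by field_simp
        _ ≤ δ * ‖y‖ ^ 3 := mul_le_mul_of_nonneg_left (by linarith) hδ.le
        _ ≤ _ := hδ2 y)
  refine ⟨x, hx, fun w hw => ?_⟩
  have h4 : x + w ∈ {x : Fin n → k | x - v ∈ W} := by
    rw [Set.mem_setOf_eq] at hx ⊢
    have : x + w - v = (x - v) + w := by abel
    rw [this]
    exact W.add_mem hx hw
  exact hmin h4

theorem exists_orth (t : Fin n → Fin n → Fin n → k) (ht : Aniso k t) :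
    ∀ m ≤ n, ∃ e : Fin m → (Fin n → k), (∀ j, e j ≠ 0) ∧
      ∀ (a : Fin m → k) (j : Fin m),
        ‖a j‖ ^ 3 * ‖cub t (e j)‖ ≤ ‖cub t (∑ i, a i • e i)‖ := by
  intro m
  induction m with
  | zero =>
    intro _
    exact ⟨fun j => j.elim0, fun j => j.elim0, fun a j => j.elim0⟩
  | succ m ih =>
    intro hm
    obtain ⟨e, he0, heO⟩ := ih (by omega)
    set W : Submodule k (Fin n → k) := Submodule.span k (Set.range e) with hWdef
    have hW : W ≠ ⊤ := by
      intro hW
      have h1 : Module.finrank k W ≤ Fintype.card (Fin m) := finrank_range_le_card e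
      rw [hW, finrank_top, Module.finrank_fin_fun, Fintype.card_fin] at h1
      omega
    obtain ⟨v, hv⟩ : ∃ v, v ∉ W := by
      by_contra hcon
      push Not at hcon
      exact hW (eq_top_iff.2 fun x _ => hcon x)
    obtain ⟨v', hv', hmin⟩ := exists_min t ht W v
    have hv'W : v' ∉ W := by
      intro h1
      apply hv
      have h2 := W.sub_mem h1 hv'
      rwa [sub_sub_cancel] at h2
    refine ⟨Fin.snoc (α := fun _ => Fin n → k) e v', ?_, ?_⟩
    · intro j
      refine Fin.lastCases ?_ (fun i => ?_) j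
      · rw [Fin.snoc_last]
        intro h0
        exact hv'W (h0 ▸ W.zero_mem)
      · rw [Fin.snoc_castSucc]
        exact he0 i
    · intro a
      rw [Fin.sum_univ_castSucc]
      simp only [Fin.snoc_castSucc, Fin.snoc_last]
      set w : Fin n → k := ∑ i : Fin m, a i.castSucc • e i with hw0
      have hw : w ∈ W := Submodule.sum_mem _ fun i _ =>
        W.smul_mem _ (Submodule.subset_span ⟨i, rfl⟩)
      have hA : ‖a (Fin.last m)‖ ^ 3 * ‖cub t v'‖ ≤ ‖cub t (w + a (Fin.last m) • v')‖ := by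
        by_cases hc : a (Fin.last m) = 0
        · rw [hc, norm_zero, zero_pow (by norm_num), zero_mul]
          exact norm_nonneg _
        · have h1 := hmin ((a (Fin.last m))⁻¹ • w) (W.smul_mem _ hw)
          have h2 : w + a (Fin.last m) • v' =
              a (Fin.last m) • (v' + (a (Fin.last m))⁻¹ • w) := by
            rw [smul_add, smul_smul, mul_inv_cancel₀ hc, one_smul, add_comm]
          rw [h2, cub_smul, norm_mul, norm_pow]
          exact mul_le_mul_of_nonneg_left h1 (by positivity)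
      intro j
      refine Fin.lastCases ?_ (fun i => ?_) j
      · rw [Fin.snoc_last]
        exact hA
      · rw [Fin.snoc_castSucc]
        have h3 := heO (fun i => a i.castSucc) i
        have h4 := ULT t ht (w + a (Fin.last m) • v') ((-a (Fin.last m)) • v')
        have h5 : w + a (Fin.last m) • v' + (-a (Fin.last m)) • v' = w := by
          rw [neg_smul]
          abel
        rw [h5, cub_smul, norm_mul, norm_pow, norm_neg] at h4
        exact h3.trans (h4.trans (max_le le_rfl hA))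

end norm

section val

open scoped Valued WithZero
open WithZero

variable {k : Type} [Field k] [Valued k ℤᵐ⁰]

/-- a rank one structure -/
noncomputable def rk (hπ : ∃ π : k, (Valued.v π : ℤᵐ⁰) = exp (-1)) :
    (Valued.v : Valuation k ℤᵐ⁰).RankOne := by
  haveI : (Valued.v : Valuation k ℤᵐ⁰).IsNontrivial := by
    obtain ⟨π, hπ⟩ := hπ
    refine ⟨⟨π, ?_, ?_⟩⟩
    · rw [hπ]; exact exp_ne_zero
    · rw [hπ, ← exp_zero]
      intro h
      have := exp_injective h
      omega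
  exact (Valuation.nonempty_rankOne_iff_mulArchimedean.2 inferInstance).some

theorem BLv [CompleteSpace k] (hπ : ∃ π : k, (Valued.v π : ℤᵐ⁰) = exp (-1)) (A B C D : k)
    (h : ∀ s r : k, (s ≠ 0 ∨ r ≠ 0) → A * s ^ 3 + B * s ^ 2 * r + C * s * r ^ 2 + D * r ^ 3 ≠ 0) :
    (Valued.v B : ℤᵐ⁰) ^ 3 ≤ Valued.v A ^ 2 * Valued.v D ∧
    (Valued.v C : ℤᵐ⁰) ^ 3 ≤ Valued.v A * Valued.v D ^ 2 := by
  letI := rk hπ
  obtain ⟨h1, h2⟩ := BL A B C D h
  rw [← norm_pow, ← norm_pow, ← norm_mul, Valued.toNormedField.norm_le_iff, map_pow, map_mul,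
    map_pow] at h1
  rw [← norm_pow, ← norm_pow, ← norm_mul, Valued.toNormedField.norm_le_iff, map_pow, map_mul,
    map_pow] at h2
  exact ⟨h1, h2⟩

theorem ULTv [CompleteSpace k] (hπ : ∃ π : k, (Valued.v π : ℤᵐ⁰) = exp (-1)) {n : ℕ}
    (t : Fin n → Fin n → Fin n → k) (ht : Aniso k t) (x y : Fin n → k) :
    (Valued.v (cub t (x + y)) : ℤᵐ⁰) ≤ max (Valued.v (cub t x)) (Valued.v (cub t y)) := by
  letI := rk hπ
  have h1 := ULT t ht x y
  rw [le_max_iff, Valued.toNormedField.norm_le_iff, Valued.toNormedField.norm_le_iff] at h1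
  rwa [le_max_iff]

theorem exists_exp {x : ℤᵐ⁰} (hx : x ≠ 0) : ∃ z : ℤ, x = exp z :=
  ⟨log x, (exp_log hx).symm⟩

theorem ORTHv [CompleteSpace k] (hπ : ∃ π : k, (Valued.v π : ℤᵐ⁰) = exp (-1))
    [IsDiscreteValuationRing 𝒪[k]] [Finite 𝓀[k]] {n : ℕ}
    (t : Fin n → Fin n → Fin n → k) (ht : Aniso k t) :
    ∃ e : Fin n → Fin n → k, LinearIndependent k e ∧
    (∀ (a : Fin n → k) (j : Fin n),
      (Valued.v (a j) : ℤᵐ⁰) ^ 3 * Valued.v (cub t (e j)) ≤ Valued.v (cub t (∑ i, a i • e i))) ∧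
    ∀ j, ∃ i : ℕ, i ≤ 2 ∧ (Valued.v (cub t (e j)) : ℤᵐ⁰) = exp (-(i : ℤ)) := by
  obtain ⟨e, he0, heO⟩ : ∃ e : Fin n → (Fin n → k), (∀ j, e j ≠ 0) ∧
      ∀ (a : Fin n → k) (j : Fin n), (Valued.v (a j) : ℤᵐ⁰) ^ 3 * Valued.v (cub t (e j)) ≤
        Valued.v (cub t (∑ i, a i • e i)) := by
    letI := rk hπ
    haveI : ProperSpace k :=
      Valued.integer.properSpace_iff_completeSpace_and_isDiscreteValuationRing_integer_and_finite_residueField.2
        ⟨inferInstance, inferInstance, inferInstance⟩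
    obtain ⟨e, he0, heO⟩ := exists_orth t ht n le_rfl
    refine ⟨e, he0, fun a j => ?_⟩
    have h1 := heO a j
    rwa [← norm_pow, ← norm_mul, Valued.toNormedField.norm_le_iff, map_mul, map_pow] at h1
  obtain ⟨π, hπ⟩ := hπ
  have hπ0 : π ≠ 0 := by
    rintro rfl
    rw [map_zero] at hπ
    exact exp_ne_zero hπ.symm
  -- scaling
  have hk : ∀ j, ∃ c : k, c ≠ 0 ∧ ∃ i : ℕ, i ≤ 2 ∧
      (Valued.v (cub t (c • e j)) : ℤᵐ⁰) = exp (-(i : ℤ)) := by
    intro j
    obtain ⟨z, h1⟩ := exists_exp ((Valuation.ne_zero_iff (Valued.v : Valuation k ℤᵐ⁰)).2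
      (ht (e j) (he0 j)))
    have h2 : 0 ≤ (-z) % 3 := Int.emod_nonneg _ (by norm_num)
    have h3 : (-z) % 3 < 3 := Int.emod_lt_of_pos _ (by norm_num)
    refine ⟨π ^ (-((-z) / 3)), zpow_ne_zero _ hπ0, ((-z) % 3).toNat, by omega, ?_⟩
    rw [cub_smul, map_mul, map_pow, map_zpow₀, hπ, h1, ← exp_zsmul, ← exp_nsmul, ← exp_add]
    congr 1
    rw [Int.toNat_of_nonneg h2]
    simp only [smul_eq_mul, nsmul_eq_mul]
    push_cast
    omega
  choose c hc0 l hl1 hl2 using hk
  have hO : ∀ (a : Fin n → k) (j : Fin n),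
      (Valued.v (a j) : ℤᵐ⁰) ^ 3 * Valued.v (cub t (c j • e j)) ≤
        Valued.v (cub t (∑ i, a i • c i • e i)) := by
    intro a j
    have h1 := heO (fun i => a i * c i) j
    have h2 : ∑ i, a i • c i • e i = ∑ i, (a i * c i) • e i :=
      Finset.sum_congr rfl fun i _ => smul_smul _ _ _
    rw [h2, cub_smul, map_mul, map_pow]
    refine le_trans (le_of_eq ?_) h1
    rw [map_mul, mul_pow, mul_assoc]
  refine ⟨fun j => c j • e j, ?_, hO, fun j => ⟨l j, hl1 j, hl2 j⟩⟩
  rw [Fintype.linearIndependent_iff]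
  intro g hg j
  have h1 := hO g j
  rw [hg, cub_zero, map_zero] at h1
  have h2 : (Valued.v (cub t (c j • e j)) : ℤᵐ⁰) ≠ 0 :=
    (Valuation.ne_zero_iff _).2 (ht _ (smul_ne_zero (hc0 j) (he0 j)))
  by_contra h3
  have h4 : (Valued.v (g j) : ℤᵐ⁰) ≠ 0 := (Valuation.ne_zero_iff _).2 h3
  exact mul_ne_zero (pow_ne_zero 3 h4) h2 (le_zero_iff.1 h1)

end val

end Pool.Agent.X292.CZ
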