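import Pool.Agent.X292.CZ.Orth
import Pool.Agent.Y149.CY.Prime

/-!
A place of a finite separable extension of a discretely valued field whose ramification index and
residue degree are prime to three (from Y149.CY.Prime).
-/

set_option autoImplicit false

namespace Pool.Agent.X292.CZ

open Module Pool.Agent.Y214.CY Pool.Agent.Y149.CY IsDedekindDomain Ideal
open scoped Valued WithZero
open WithZero

variable {k : Type} [Field k] [Valued k ℤᵐ⁰]

theorem isUnit_iff' (x : 𝒪[k]) : IsUnit x ↔ (Valued.v : Valuation k ℤᵐ⁰) (x : k) = 1 :=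
  (Valuation.integer.integers (Valued.v : Valuation k ℤᵐ⁰)).isUnit_iff_valuation_eq_one

theorem mem_max (x : 𝒪[k]) : x ∈ 𝓂[k] ↔ (Valued.v : Valuation k ℤᵐ⁰) (x : k) < 1 := by
  rw [IsLocalRing.mem_maximalIdeal, mem_nonunits_iff, isUnit_iff']
  constructor
  · intro h
    exact lt_of_le_of_ne x.2 h
  · intro h
    exact h.ne

/-- the uniformizer -/
def unif {π : k} (hπ : (Valued.v : Valuation k ℤᵐ⁰) π = exp (-1)) : 𝒪[k] :=
  ⟨π, by
    show (Valued.v : Valuation k ℤᵐ⁰) π ≤ 1
    rw [hπ, ← exp_zero, WithZero.exp_le_exp]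
    norm_num⟩

theorem lt_one_iff {x : ℤᵐ⁰} : x < 1 ↔ x ≤ exp (-1) := by
  by_cases hx : x = 0
  · subst hx
    exact iff_of_true (by simp) zero_le'
  · obtain ⟨z, rfl⟩ := exists_exp hx
    rw [← exp_zero, WithZero.exp_lt_exp, WithZero.exp_le_exp]
    omega

theorem max_eq {π : k} (hπ : (Valued.v : Valuation k ℤᵐ⁰) π = exp (-1)) : 𝓂[k] = Ideal.span {unif hπ} := by
  have hπ0 : π ≠ 0 := by
    rintro rfl
    rw [map_zero] at hπ
    exact exp_ne_zero hπ.symm
  ext x
  rw [mem_max, Ideal.mem_span_singleton, lt_one_iff]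
  constructor
  · intro h
    refine ⟨⟨x / π, ?_⟩, ?_⟩
    · show (Valued.v : Valuation k ℤᵐ⁰) (x / π) ≤ 1
      rw [map_div₀, hπ, div_le_one₀ (zero_lt_iff.2 exp_ne_zero)]
      exact h
    · apply Subtype.ext
      show (x : k) = π * (x / π)
      field_simp
  · rintro ⟨y, rfl⟩
    show (Valued.v : Valuation k ℤᵐ⁰) (π * y) ≤ _
    rw [map_mul, hπ]
    exact mul_le_of_le_one_right' y.2

theorem prime_gen [IsDiscreteValuationRing 𝒪[k]] (hπ : ∃ π : k, (Valued.v : Valuation k ℤᵐ⁰) π = exp (-1)) (K : Type) [Field K]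
    [Algebra k K] [FiniteDimensional k K] [Algebra.IsSeparable k K] (h3 : ¬ 3 ∣ finrank k K) :
    ∃ (w : Valuation K ℤᵐ⁰) (e : ℕ) (κ : Type) (_ : Field κ)
    (_ : Algebra 𝓀[k] κ) (_ : FiniteDimensional 𝓀[k] κ) (red : w.integer →+* κ),
    ¬ 3 ∣ e ∧ ¬ 3 ∣ finrank 𝓀[k] κ ∧
    (∀ (x : k) (m : ℤ), (Valued.v : Valuation k ℤᵐ⁰) x = exp m → w (algebraMap k K x) = exp ((e : ℤ) * m)) ∧
    (∀ x : w.integer, red x = 0 ↔ w (x : K) < 1) ∧
    (∀ (z : 𝒪[k]) (x : w.integer), (x : K) = algebraMap k K (z : k) →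
      red x = algebraMap 𝓀[k] κ (IsLocalRing.residue _ z)) := by
  classical
  obtain ⟨π, hπ⟩ := hπ
  have hπ0 : π ≠ 0 := by
    rintro rfl
    rw [map_zero] at hπ
    exact exp_ne_zero hπ.symm
  let S := integralClosure 𝒪[k] K
  haveI : IsDedekindDomain S := integralClosure.isDedekindDomain 𝒪[k] k K
  haveI : IsFractionRing S K := integralClosure.isFractionRing_of_finite_extension k K
  haveI : Module.Finite 𝒪[k] S := IsIntegralClosure.finite 𝒪[k] k K S
  have hinj : Function.Injective (algebraMap 𝒪[k] K) := by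
    rw [IsScalarTower.algebraMap_eq 𝒪[k] k K]
    exact (algebraMap k K).injective.comp (IsFractionRing.injective 𝒪[k] k)
  haveI : IsTorsionFree 𝒪[k] K := by
    rw [Module.isTorsionFree_iff_algebraMap_injective]
    exact hinj
  set m := 𝓂[k] with hm
  have hm0 : m ≠ ⊥ := IsDiscreteValuationRing.not_a_field 𝒪[k]
  have hsum := Ideal.sum_ramification_inertia (R := 𝒪[k]) S k K hm0
  obtain ⟨P, hP, hPef⟩ : ∃ P ∈ IsDedekindDomain.primesOverFinset m S,
      ¬ 3 ∣ ramificationIdx' m P * inertiaDeg' m P := by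
    by_contra hcon
    push Not at hcon
    apply h3
    rw [← hsum]
    exact Finset.dvd_sum hcon
  have hPo := (IsDedekindDomain.mem_primesOverFinset_iff hm0 S).mp hP
  haveI hPp : P.IsPrime := hPo.1
  haveI hPl : P.LiesOver m := hPo.2
  have hP0 : P ≠ ⊥ := Ideal.ne_bot_of_mem_primesOver hm0 hPo
  have he3 : ¬ 3 ∣ ramificationIdx' m P := fun h => hPef (h.mul_right _)
  have hf3 : ¬ 3 ∣ inertiaDeg' m P := fun h => hPef (h.mul_left _)
  let v : HeightOneSpectrum S := ⟨P, hPp, hP0⟩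
  have hcomp : ∀ z : 𝒪[k], algebraMap S K (algebraMap 𝒪[k] S z) = algebraMap k K (z : k) := by
    intro z
    rw [← IsScalarTower.algebraMap_apply, IsScalarTower.algebraMap_apply 𝒪[k] k K]
    rfl
  -- the valuation of `π`
  have hpS : algebraMap 𝒪[k] S (unif hπ) ≠ 0 := by
    intro h
    have h1 := hcomp (unif hπ)
    rw [h, map_zero] at h1
    exact hπ0 ((algebraMap k K).injective (by rw [map_zero]; exact h1.symm))
  have hwp : v.valuation K (algebraMap k K π) = exp (-(ramificationIdx' m P : ℤ)) := by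
    have h1 : algebraMap k K π = algebraMap S K (algebraMap 𝒪[k] S (unif hπ)) :=
      (hcomp (unif hπ)).symm
    have h2 : Ideal.map (algebraMap 𝒪[k] S) m = Ideal.span {algebraMap 𝒪[k] S (unif hπ)} := by
      rw [hm, max_eq hπ, Ideal.map_span, Set.image_singleton]
    have h3 : Ideal.map (algebraMap 𝒪[k] S) m ≠ ⊥ := by
      rw [h2, Ne, Ideal.span_singleton_eq_bot]
      exact hpS
    rw [h1, HeightOneSpectrum.valuation_of_algebraMap,
      HeightOneSpectrum.intValuation_eq_exp_neg_multiplicity _ hpS,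
      Ideal.IsDedekindDomain.ramificationIdx'_eq_multiplicity h3 hPp, h2]
  -- units
  have hle : ∀ z : 𝒪[k], v.valuation K (algebraMap k K (z : k)) ≤ 1 := by
    intro z
    rw [← hcomp]
    exact v.valuation_le_one _
  have hunit : ∀ u : k, (Valued.v : Valuation k ℤᵐ⁰) u = 1 → v.valuation K (algebraMap k K u) = 1 := by
    intro u hu
    have hu0 : u ≠ 0 := by
      rintro rfl
      rw [map_zero] at hu
      exact zero_ne_one hu
    apply le_antisymm (hle ⟨u, hu.le⟩)
    have h1 := hle ⟨u⁻¹, by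
      show (Valued.v : Valuation k ℤᵐ⁰) u⁻¹ ≤ 1
      rw [map_inv₀, hu, inv_one]⟩
    have h2 : v.valuation K (algebraMap k K u) * v.valuation K (algebraMap k K u⁻¹) = 1 := by
      rw [← map_mul, ← map_mul, mul_inv_cancel₀ hu0, map_one, map_one]
    calc (1 : ℤᵐ⁰) = _ := h2.symm
      _ ≤ v.valuation K (algebraMap k K u) * 1 := by
        gcongr
      _ = _ := mul_one _
  -- the residue field
  let φ : 𝒪[k] →+* (v.valuation K).integer := (inc (K := K) v).comp (algebraMap 𝒪[k] S)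
  have hφ : ∀ z : 𝒪[k], ((φ z : (v.valuation K).integer) : K) = algebraMap k K (z : k) := fun z =>
    hcomp z
  have hφm : ∀ z ∈ 𝓂[k], φ z ∈ mI (v.valuation K) := by
    intro z hz
    show inc (K := K) v (algebraMap 𝒪[k] S z) ∈ _
    rw [inc_mem]
    have h1 : z ∈ P.comap (algebraMap 𝒪[k] S) := by
      have := hPl.over
      rw [← Ideal.under_def, ← this]
      exact hz
    exact h1
  let ψ : 𝓀[k] →+* ((v.valuation K).integer ⧸ mI (v.valuation K)) :=
    Ideal.quotientMap (mI (v.valuation K)) φ (fun z hz => hφm z hz)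
  letI alg : Algebra 𝓀[k] ((v.valuation K).integer ⧸ mI (v.valuation K)) := ψ.toAlgebra
  have hψ : ∀ z : 𝒪[k], ψ (IsLocalRing.residue _ z) = Ideal.Quotient.mk _ (φ z) := fun z => rfl
  have hred : ∀ (z : 𝒪[k]) (x : (v.valuation K).integer),
      (x : K) = algebraMap k K (z : k) →
      Ideal.Quotient.mk (mI (v.valuation K)) x =
        algebraMap 𝓀[k] ((v.valuation K).integer ⧸ mI (v.valuation K)) (IsLocalRing.residue _ z) := by
    intro z x hx
    show _ = ψ _
    rw [hψ]
    congr 1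
    apply Subtype.ext
    rw [hφ, hx]
  have hfin : finrank 𝓀[k] ((v.valuation K).integer ⧸ mI (v.valuation K)) = inertiaDeg' m P := by
    rw [Ideal.inertiaDeg'_algebraMap]
    symm
    refine Algebra.finrank_eq_of_equiv_equiv (RingEquiv.refl (𝒪[k] ⧸ m)) (resEquiv (K := K) v) ?_
    apply Ideal.Quotient.ringHom_ext
    ext z
    show ψ (IsLocalRing.residue _ z) =
      resHom (K := K) v (Ideal.Quotient.mk _ (algebraMap 𝒪[k] S z))
    rw [resHom_mk, hψ]
    rfl
  haveI : FiniteDimensional 𝓀[k] ((v.valuation K).integer ⧸ mI (v.valuation K)) := by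
    apply Module.finite_of_finrank_pos
    rw [hfin]
    exact Nat.pos_of_ne_zero fun h => hf3 (h ▸ dvd_zero 3)
  refine ⟨v.valuation K, ramificationIdx' m P, (v.valuation K).integer ⧸ mI (v.valuation K),
    inferInstance, alg, inferInstance, Ideal.Quotient.mk _, he3, ?_, ?_, ?_, hred⟩
  · rw [hfin]
    exact hf3
  · intro x n hx
    have hu : (Valued.v : Valuation k ℤᵐ⁰) (x * π ^ n) = 1 := by
      rw [map_mul, map_zpow₀, hx, hπ, ← exp_zsmul, ← exp_add, ← exp_zero]
      congr 1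
      simp
    have h1 : x = (x * π ^ n) * π ^ (-n) := by
      rw [mul_assoc, ← zpow_add₀ hπ0, add_neg_cancel, zpow_zero, mul_one]
    rw [h1, map_mul, map_mul, hunit _ hu, one_mul, map_zpow₀, map_zpow₀, hwp, ← exp_zsmul]
    congr 1
    rw [smul_eq_mul]
    ring
  · intro x
    rw [Ideal.Quotient.eq_zero_iff_mem, mem_mI]

end Pool.Agent.X292.CZ
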